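import Pool.Agent.TH127.MU.Quad4
import Pool.Agent.TH127.MU.Inertia

/-!
# Iwasawa's `μ = 0` for abelian extensions of imaginary quadratic fields: real subfields suffice

Let `p` be an odd prime number, and let `ℚ^cyc` be the cyclotomic `ℤ_p`-extension of `ℚ`. For a
number field `F` let `X(F)` be the Galois group of the maximal unramified abelian pro-`p` extension
of `F^cyc = F ℚ^cyc`. Then `μ = 0` for `F` if and only if `X(F) / p` is finite, that is, if and only
if there are only finitely many continuous characters with values in `ℤ/p` of the absolute Galois
group of `F^cyc` that are trivial on the inertia groups of all primes (`FewChars`). Here a prime is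
a maximal ideal of the ring of the algebraic integers. Only two properties of `B = ℚ^cyc` are used:
it is totally real and Galois over `ℚ`, and it has only finitely many primes above each prime number
(`FewPrimes`: up to automorphisms over `B` only finitely many primes contain a given nonzero
integer).

We show: `μ = 0` holds for all finite abelian extensions `K` of all imaginary quadratic fields `k`
if and only if it holds for the maximal real subfields `L ∩ ℝ` of the Galois extensions `L` of `ℚ`
that are abelian over an imaginary quadratic field `k`, with `[L : k] = [L ∩ ℝ : ℚ]` prime to `p`,
and for the subfields of `L` that are abelian over `ℚ` (for these it is the theorem of Ferrero and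
Washington).

Proof. The Galois closure `N` of `K` over `ℚ` is abelian over `k`: the commutator subgroup of
`A = Gal(N/k)` is normal in `Gal(N/ℚ)` and acts trivially on `K`. Let `T` be the Sylow subgroup of
`A` for `p`, and `L` its fixed field. By genus theory (Iwasawa) `μ = 0` for `L` implies `μ = 0` for
`N` and then for `K`. Let `V = X(L) / p`, and let `W` be the sum of the spaces `(1 + c) V` for the
complex conjugations `c`. By genus theory for the fixed fields of the `c`, which are conjugate to
`L ∩ ℝ`, the space `W` is finite. On `V / W` all complex conjugations are `-1`, so the group `M`
generated by the products of two of them acts trivially. The fixed field of `M` is abelian over `ℚ`,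
since complex conjugation is central in `G / M` and `A` is commutative. So `V / W` is finite.
-/

set_option autoImplicit false

namespace Pool.Agent.Results.MP_b78433_nt.RealSubfields

open NumberField Pool.Agent.TH127.MU

/-- Let `p` be a prime number and `B` a totally real Galois extension of `ℚ` (of possibly infinite
degree) with only finitely many primes above each prime number. The following are equivalent: (1)
for each finite abelian extension `K` of an imaginary quadratic field the absolute Galois group of
`K B` has only finitely many characters with values in `ℤ/p` that are trivial on the inertia groups
of all primes; (2) the same holds for `L ∩ ℝ` and for the subfields of `L` that are abelian over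
`ℚ`, for each finite abelian extension `L` of an imaginary quadratic field which is Galois over `ℚ`
and such that the degree of `L ∩ ℝ` over `ℚ` is prime to `p`. -/
theorem result (p : ℕ) [Fact p.Prime] (B : IntermediateField ℚ ℂ) [Normal ℚ B]
    [IsTotallyReal B] (hB : FewPrimes B) :
    (∀ k K, IsImaginaryQuadratic k → IsFiniteAbelian k K → FewChars p inertiaGroups B K) ↔
      ∀ k L, IsImaginaryQuadratic k → IsFiniteAbelian k L → Normal ℚ L →
        ¬ p ∣ Module.finrank ℚ (L ⊓ realField : IntermediateField ℚ ℂ) →
          FewChars p inertiaGroups B (L ⊓ realField) ∧
          ∀ F ≤ L, IsAbelianGalois ℚ F → FewChars p inertiaGroups B F :=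
  reduction_quadratic p B inertiaGroups conjClosed_inertiaGroups (fewRamified_inertiaGroups B hB)

end Pool.Agent.Results.MP_b78433_nt.RealSubfields
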